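import Pool.Agent.helper92.FV.Fin

/-!
# MP_51fbee_al : finite regularity of the Frobenius-Veronese module implies Koszulness

Full positive answer to Q1, for every field `k` of characteristic `p > 0`, every standard graded
commutative `k`-algebra `R` and every `q = p ^ e`, `e ≥ 1` (F-finiteness of `k` is not needed).

`FV.GrFreeRes 𝒜 N ℳ` : graded free resolutions of the graded `R`-module `N = ⊕ ℳ j`;
`F.TorVan n m` : `Tor_n(N, k)_m = 0`, i.e. `H_n(F ⊗ k)_m = 0`;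
`FV.verSub 𝒜 p e`, `FV.verSubGr 𝒜 p e` : the module `R^{(q)} = ⊕ R_{qj}` with `a • x = a ^ q * x`
and its grading; `R ⧸ FV.irr 𝒜`, `FV.resGr 𝒜` : the residue field in degree `0`.
-/

namespace Pool.Agent.Results.MP_51fbee_al.FiniteRegKoszul

universe u

/-- If `Tor_n(R^{(q)}, k)_m = 0` for all `m > n + r` (i.e. `reg_R R^{(q)} ≤ r`), then
`Tor_n(k, k)_m = 0` for all `m ≠ n`, i.e. `R` is Koszul. The hypothesis is stated for some graded
free resolution of `R^{(q)}`, the conclusion for every graded free resolution of `k` (and one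
exists). -/
theorem result {k : Type u} [Field k] {p : ℕ} [Fact p.Prime] [CharP k p]
    {R : Type u} [CommRing R] [Algebra k R] [ExpChar R p]
    (𝒜 : ℕ → Submodule k R) [GradedAlgebra 𝒜] (hR : FV.StdGraded 𝒜)
    (e : ℕ) (he : 1 ≤ e)
    (hreg : ∃ (F : FV.GrFreeRes 𝒜 (FV.verSub 𝒜 p e) (FV.verSubGr 𝒜 p e)) (r : ℕ),
      ∀ (n : ℕ) (m : ℤ), (n : ℤ) + r < m → F.TorVan n m) :
    Nonempty (FV.GrFreeRes 𝒜 (R ⧸ FV.irr 𝒜) (FV.resGr 𝒜)) ∧
    ∀ F : FV.GrFreeRes 𝒜 (R ⧸ FV.irr 𝒜) (FV.resGr 𝒜),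
      ∀ (n : ℕ) (m : ℤ), m ≠ n → F.TorVan n m :=
  FV.main p hR e he hreg

end Pool.Agent.Results.MP_51fbee_al.FiniteRegKoszul
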